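import Pool.Agent.H97.HV.Targets2
import Pool.Agent.H97.PRK.VDL

/-!
# Row SMV: an element of a small set is definable from a parameter in `V_ δ`
-/

set_option autoImplicit false

namespace Pool.Agent.H41.HV

open _root_.HD HD.PRK HD.HV
open Ordinal Cardinal Order Set
open scoped ZFSet

universe u

/-- `b` codes the part of `y` in the set of the splitting points of `Z` -/
def SmCod (m : Ordinal.{u}) (Z y b : ZFSet.{u}) : Prop :=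
  y ∈ Z ∧ ∀ i z : Ordinal.{u}, nth (Pool.Agent.H97.PRK.vDel m Z) i z →
    (z.toZFSet ∈ y ↔ i.toZFSet ∈ b)

theorem smcod_iff (m : Ordinal.{u}) (Z y b : ZFSet.{u}) : SmCod m Z y b ↔ y ∈ Z ∧
    ∀ S : ZFSet.{u}, (∀ w, w ∈ S ↔ w ∈ m.toZFSet ∧ ∃ Y ∈ Z, ∃ Y' ∈ Z, w ∈ Y ∧ w ∉ Y' ∧
      ∀ k ∈ w, k ∈ Y ↔ k ∈ Y') → ∀ z ∈ S, ∀ x, x.IsOrdinal →
        ∀ t : ZFSet.{u}, (∀ w, w ∈ t ↔ w ∈ z ∧ w ∈ S) → ∀ g, EnZ x t g → (z ∈ y ↔ x ∈ b) := by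
  have hS : ∀ w, w ∈ os m (Pool.Agent.H97.PRK.vDel m Z) ↔ w ∈ m.toZFSet ∧ ∃ Y ∈ Z, ∃ Y' ∈ Z,
      w ∈ Y ∧ w ∉ Y' ∧ ∀ k ∈ w, k ∈ Y ↔ k ∈ Y' := by
    intro w
    rw [mem_os]
    constructor
    · rintro ⟨a, ha, h, rfl⟩
      exact ⟨toZFSet_mem_toZFSet_iff.2 ha, h.2⟩
    · rintro ⟨h1, h2⟩
      obtain ⟨a, ha, rfl⟩ := mem_toZFSet_iff.1 h1
      exact ⟨a, ha, ⟨ha, h2⟩, rfl⟩
  have ht : ∀ z < m, ∀ w, w ∈ os z (Pool.Agent.H97.PRK.vDel m Z) ↔ w ∈ z.toZFSet ∧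
      w ∈ os m (Pool.Agent.H97.PRK.vDel m Z) := by
    intro z hz w
    rw [mem_os, mem_os]
    constructor
    · rintro ⟨a, ha, h, rfl⟩
      exact ⟨toZFSet_mem_toZFSet_iff.2 ha, a, ha.trans hz, h, rfl⟩
    · rintro ⟨h1, a, ha, h, rfl⟩
      exact ⟨a, toZFSet_mem_toZFSet_iff.1 h1, h, rfl⟩
  unfold SmCod
  refine and_congr_right fun _ => ?_
  constructor
  · intro h S h1 z hz x hx t h2 g hg
    have e1 : S = os m (Pool.Agent.H97.PRK.vDel m Z) := by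
      ext w
      rw [h1, hS]
    obtain ⟨x, rfl⟩ := ord_of hx
    rw [e1] at hz
    obtain ⟨z, hzm, hzD, rfl⟩ := mem_os.1 hz
    have e2 : t = os z (Pool.Agent.H97.PRK.vDel m Z) := by
      ext w
      rw [h2, ht z hzm, e1]
    refine h x z ((nth_iff _ _ _).2 ⟨hzD, g, ?_⟩)
    rw [← e2]
    exact hg
  · intro h i z hn
    obtain ⟨hzD, g, hg⟩ := (nth_iff _ _ _).1 hn
    exact h _ hS z.toZFSet (ord_mem_os.2 ⟨hzD.1, hzD⟩) i.toZFSet (ZFSet.isOrdinal_toZFSet _) _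
      (ht z hzD.1) g hg

theorem dz_smcod (m : Ordinal.{u}) : DZ.{u} fun v => SmCod m (v 0) (v 1) (v 2) := by
  have h : DZ.{u} fun v => v 1 ∈ v 0 ∧
    ∀ S : ZFSet.{u}, (∀ w, w ∈ S ↔ w ∈ m.toZFSet ∧ ∃ Y ∈ v 0, ∃ Y' ∈ v 0, w ∈ Y ∧ w ∉ Y' ∧
      ∀ k ∈ w, k ∈ Y ↔ k ∈ Y') → ∀ z ∈ S, ∀ x, x.IsOrdinal →
        ∀ t : ZFSet.{u}, (∀ w, w ∈ t ↔ w ∈ z ∧ w ∈ S) → ∀ g, EnZ x t g →
          (z ∈ v 1 ↔ x ∈ v 2) := by
    refine (DZ.mem 1 0).and ?_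
    refine DZ.all (R := fun S v => (∀ w, w ∈ S ↔ w ∈ m.toZFSet ∧ ∃ Y ∈ v 0, ∃ Y' ∈ v 0, w ∈ Y ∧
      w ∉ Y' ∧ ∀ k ∈ w, k ∈ Y ↔ k ∈ Y') → ∀ z ∈ S, ∀ x, x.IsOrdinal →
        ∀ t : ZFSet.{u}, (∀ w, w ∈ t ↔ w ∈ z ∧ w ∈ S) → ∀ g, EnZ x t g →
          (z ∈ v 1 ↔ x ∈ v 2)) ?_
    refine DZ.imp ?_ ?_
    · refine DZ.od (R := fun M v => ∀ w, w ∈ v 0 ↔ w ∈ M ∧ ∃ Y ∈ v 1, ∃ Y' ∈ v 1, w ∈ Y ∧
        w ∉ Y' ∧ ∀ k ∈ w, k ∈ Y ↔ k ∈ Y') (OD.ordinal m) ?_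
      refine DZ.all (R := fun w v => w ∈ v 1 ↔ w ∈ v 0 ∧ ∃ Y ∈ v 2, ∃ Y' ∈ v 2, w ∈ Y ∧
        w ∉ Y' ∧ ∀ k ∈ w, k ∈ Y ↔ k ∈ Y') ?_
      refine (DZ.mem 0 2).iff ((DZ.mem 0 1).and ?_)
      refine DZ.exMem (R := fun Y v => ∃ Y' ∈ v 3, v 0 ∈ Y ∧
        v 0 ∉ Y' ∧ ∀ k ∈ v 0, k ∈ Y ↔ k ∈ Y') 3 ?_
      refine DZ.exMem (R := fun Y' v => v 1 ∈ v 0 ∧
        v 1 ∉ Y' ∧ ∀ k ∈ v 1, k ∈ v 0 ↔ k ∈ Y') 4 ?_
      refine (DZ.mem 2 1).and ((DZ.mem 2 0).not.and ?_)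
      exact DZ.allMem (R := fun k v => k ∈ v 1 ↔ k ∈ v 0) 2 ((DZ.mem 0 2).iff (DZ.mem 0 1))
    · refine DZ.allMem (R := fun z v => ∀ x, x.IsOrdinal →
        ∀ t : ZFSet.{u}, (∀ w, w ∈ t ↔ w ∈ z ∧ w ∈ v 0) → ∀ g, EnZ x t g →
          (z ∈ v 2 ↔ x ∈ v 3)) 0 ?_
      refine DZ.all (R := fun x v => x.IsOrdinal →
        ∀ t : ZFSet.{u}, (∀ w, w ∈ t ↔ w ∈ v 0 ∧ w ∈ v 1) → ∀ g, EnZ x t g →
          (v 0 ∈ v 3 ↔ x ∈ v 4)) ?_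
      refine (DZ.ord 0).imp ?_
      refine DZ.all (R := fun t v => (∀ w, w ∈ t ↔ w ∈ v 1 ∧ w ∈ v 2) → ∀ g, EnZ (v 0) t g →
          (v 1 ∈ v 4 ↔ v 0 ∈ v 5)) ?_
      refine DZ.imp ?_ ?_
      · refine DZ.all (R := fun w v => w ∈ v 0 ↔ w ∈ v 2 ∧ w ∈ v 3) ?_
        exact (DZ.mem 0 1).iff ((DZ.mem 0 3).and (DZ.mem 0 4))
      · refine DZ.all (R := fun g v => EnZ (v 1) (v 0) g → (v 2 ∈ v 5 ↔ v 1 ∈ v 6)) ?_
        exact (dz_EnZ 2 1 0).imp ((DZ.mem 3 6).iff (DZ.mem 2 7))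
  exact h.congr fun v => smcod_iff m (v 0) (v 1) (v 2)

/-- an element of `Z` is determined by its part in the set of the splitting points -/
theorem smcod_unique {m : Ordinal.{u}} {Z y B b : ZFSet.{u}} (hZ : ∀ B ∈ Z, B ⊆ m.toZFSet)
    (h1 : SmCod m Z y b) (h2 : SmCod m Z B b) : y = B := by
  by_contra hne
  have hex : ∃ i : Ordinal.{u}, ¬ (i.toZFSet ∈ y ↔ i.toZFSet ∈ B) := by
    by_contra hcon
    push Not at hcon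
    apply hne
    ext z
    constructor
    · intro hz
      obtain ⟨i, -, rfl⟩ := mem_toZFSet_iff.1 (hZ y h1.1 hz)
      exact (hcon i).1 hz
    · intro hz
      obtain ⟨i, -, rfl⟩ := mem_toZFSet_iff.1 (hZ B h2.1 hz)
      exact (hcon i).2 hz
  obtain ⟨i, hi, hmin⟩ := WellFounded.has_min
    (r := ((· < ·) : Ordinal.{u} → _ → Prop)) Ordinal.lt_wf
    {i | ¬ (i.toZFSet ∈ y ↔ i.toZFSet ∈ B)} hex
  have hmin' : ∀ k ∈ i.toZFSet, k ∈ y ↔ k ∈ B := by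
    intro k hk
    obtain ⟨k, hk', rfl⟩ := mem_toZFSet_iff.1 hk
    by_contra hcon
    exact hmin k hcon hk'
  have hi' : ¬ (i.toZFSet ∈ y ↔ i.toZFSet ∈ B) := hi
  have hiD : i ∈ Pool.Agent.H97.PRK.vDel m Z := by
    by_cases hv : i.toZFSet ∈ y
    · refine ⟨?_, y, h1.1, B, h2.1, hv, fun h => hi' ⟨fun _ => h, fun _ => hv⟩, hmin'⟩
      exact toZFSet_mem_toZFSet_iff.1 (hZ y h1.1 hv)
    · have hv2 : i.toZFSet ∈ B := by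
        by_contra hcon
        exact hi' ⟨fun h => absurd h hv, fun h => absurd h hcon⟩
      refine ⟨?_, B, h2.1, y, h1.1, hv2, hv, fun k hk => (hmin' k hk).symm⟩
      exact toZFSet_mem_toZFSet_iff.1 (hZ B h2.1 hv2)
  obtain ⟨k, -, hk⟩ := (HD.All.vh (Pool.Agent.H97.PRK.vDel m Z)).1 i hiD
  exact hi' ((h1.2 k i hk).trans (h2.2 k i hk).symm)

theorem pf_SMV : T_SMV.{u} := by
  intro D _ _ hD0 m a Z hZ hZm hs B hB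
  obtain ⟨ν, hν, hs⟩ := hs
  obtain ⟨τ, hτ, h1, h2⟩ := Pool.Agent.H17.HD.XK.idx HD.All.vh
    (Pool.Agent.H97.PRK.few_vDel hD0.le hν (a := m) hs)
  set b : ZFSet.{u} := os τ {k | ∃ z, nth (Pool.Agent.H97.PRK.vDel m Z) k z ∧
    z.toZFSet ∈ B} with hb
  have hbV : b ∈ V_ D.ord :=
    mem_V_of_sub (y := τ.toZFSet) (fun z hz => (ZFSet.mem_sep.1 hz).1) (Gd.ord.2 hτ)
  have hBb : SmCod m Z B b := by
    refine ⟨hB, fun i z hn => ?_⟩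
    rw [hb, ord_mem_os]
    constructor
    · intro h6
      exact ⟨h2 i z hn, z, hn, h6⟩
    · rintro ⟨-, z', h6, h7⟩
      have h8 : z = z' := by
        have h9 := (HD.All.vh (Pool.Agent.H97.PRK.vDel m Z)).2.1
        rcases lt_trichotomy z z' with h | h | h
        · exact absurd ((h9 _ _ _ _ hn h6).2 h) (lt_irrefl _)
        · exact h
        · exact absurd ((h9 _ _ _ _ h6 hn).2 h) (lt_irrefl _)
      rwa [h8]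
  refine ⟨b, hbV, ?_⟩
  obtain ⟨Q, hQ, hQu⟩ := Pool.Agent.H45.NF.ODp.def hZ
  refine Pool.Agent.H45.NF.ODp.of_dz (Q := fun v => ∃ Z a b, v 1 = ZFSet.pair a b ∧
    Q (cons Z fun _ => a) ∧ SmCod m Z (v 0) b) ?_ fun y => ?_
  · refine DZ.ex (R := fun Z v => ∃ a b, v 1 = ZFSet.pair a b ∧
      Q (cons Z fun _ => a) ∧ SmCod m Z (v 0) b)
      (DZ.ex (R := fun a v => ∃ b, v 2 = ZFSet.pair a b ∧
        Q (cons (v 0) fun _ => a) ∧ SmCod m (v 0) (v 1) b)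
      (DZ.ex (R := fun b v => v 3 = ZFSet.pair (v 0) b ∧
        Q (cons (v 1) fun _ => v 0) ∧ SmCod m (v 1) (v 2) b) ?_))
    refine (loc_pair 4 1 0).dz.and (DZ.and ?_ ?_)
    · refine (hQ.ren fun n => if n = 0 then 2 else 1).congr fun v => ?_
      have : (cons (v 2) fun _ => v 1) = fun n => v (if n = 0 then 2 else 1) := by
        funext n
        rcases n with _ | n <;> simp
      rw [← this]
    · refine ((dz_smcod m).ren fun n => if n = 0 then 2 else if n = 1 then 3 else 0).congr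
        fun v => ?_
      simp
  · constructor
    · rintro ⟨Z', a', b', he, hq, hc⟩
      have he' : ZFSet.pair a b = ZFSet.pair a' b' := he
      obtain ⟨rfl, rfl⟩ := ZFSet.pair_injective he'
      obtain rfl := (hQu Z').1 hq
      exact smcod_unique hZm hc hBb
    · intro hy
      have hy' : y = B := hy
      subst hy'
      exact ⟨Z, a, b, rfl, (hQu Z).2 rfl, hBb⟩

end Pool.Agent.H41.HV
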